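import Mathlib

/-!
General facts about a second compatible group operation `op` on the lattice of an abelian
lattice-ordered group `G` which carries a commutative ring structure in which the elements
between `0` and `1` behave like characteristic functions.
-/

set_option autoImplicit false

namespace Pool.Agent.H343R3.UA

/-- A compatible group operation with identity `0`. -/
structure Compat {G : Type*} [Lattice G] [Zero G] (op : G → G → G) : Prop where
  assoc : ∀ x y z : G, op (op x y) z = op x (op y z)
  unit : ∀ x : G, op 0 x = x ∧ op x 0 = x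
  inv : ∀ x : G, ∃ y : G, op x y = 0 ∧ op y x = 0
  mono : ∀ a b c : G, a ≤ b → op c a ≤ op c b ∧ op a c ≤ op b c

section general

variable {G : Type*} [Lattice G] [Zero G] {op : G → G → G}

theorem Compat.flip (h : Compat op) : Compat (fun a b => op b a) where
  assoc := fun x y z => (h.assoc z y x).symm
  unit := fun x => ⟨(h.unit x).2, (h.unit x).1⟩
  inv := fun x => by
    obtain ⟨y, h1, h2⟩ := h.inv x
    exact ⟨y, h2, h1⟩
  mono := fun a b c hab => ⟨(h.mono a b c hab).2, (h.mono a b c hab).1⟩

theorem Compat.le_left (h : Compat op) {a b c : G} : op c a ≤ op c b ↔ a ≤ b := by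
  constructor
  · intro hab
    obtain ⟨d, _, h2⟩ := h.inv c
    have := (h.mono _ _ d hab).1
    rw [← h.assoc, ← h.assoc, h2, (h.unit a).1, (h.unit b).1] at this
    exact this
  · intro hab
    exact (h.mono _ _ c hab).1

theorem Compat.le_right (h : Compat op) {a b c : G} : op a c ≤ op b c ↔ a ≤ b :=
  h.flip.le_left

theorem Compat.left_sup (h : Compat op) (a b c : G) : op a (b ⊔ c) = op a b ⊔ op a c := by
  obtain ⟨d, h1, h2⟩ := h.inv a
  apply le_antisymm
  · rw [← h.le_left (c := d), ← h.assoc, h2, (h.unit _).1]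
    apply sup_le
    · have : op a b ≤ op a b ⊔ op a c := le_sup_left
      have := (h.mono _ _ d this).1
      rwa [← h.assoc, h2, (h.unit _).1] at this
    · have : op a c ≤ op a b ⊔ op a c := le_sup_right
      have := (h.mono _ _ d this).1
      rwa [← h.assoc, h2, (h.unit _).1] at this
  · exact sup_le ((h.mono _ _ a le_sup_left).1) ((h.mono _ _ a le_sup_right).1)

theorem Compat.left_inf (h : Compat op) (a b c : G) : op a (b ⊓ c) = op a b ⊓ op a c := by
  obtain ⟨d, h1, h2⟩ := h.inv a
  apply le_antisymm
  · exact le_inf ((h.mono _ _ a inf_le_left).1) ((h.mono _ _ a inf_le_right).1)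
  · rw [← h.le_left (c := d), ← h.assoc d a, h2, (h.unit _).1]
    apply le_inf
    · have : op a b ⊓ op a c ≤ op a b := inf_le_left
      have := (h.mono _ _ d this).1
      rwa [← h.assoc d a b, h2, (h.unit b).1] at this
    · have : op a b ⊓ op a c ≤ op a c := inf_le_right
      have := (h.mono _ _ d this).1
      rwa [← h.assoc d a c, h2, (h.unit c).1] at this

theorem Compat.right_sup (h : Compat op) (a b c : G) : op (b ⊔ c) a = op b a ⊔ op c a :=
  h.flip.left_sup a b c

theorem Compat.right_inf (h : Compat op) (a b c : G) : op (b ⊓ c) a = op b a ⊓ op c a :=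
  h.flip.left_inf a b c

/-- `a = a⁺ a⁻`. -/
theorem Compat.sup_inf_zero (h : Compat op) (a : G) : op (a ⊔ 0) (a ⊓ 0) = a := by
  apply le_antisymm
  · rw [h.right_sup, (h.unit _).1]
    refine sup_le ?_ inf_le_left
    rw [h.left_inf, (h.unit _).2]
    exact inf_le_right
  · rw [h.left_inf, (h.unit _).2]
    refine le_inf ?_ le_sup_left
    rw [h.right_sup, (h.unit _).1]
    exact le_sup_right

/-- Disjoint elements: the product is the join. -/
theorem Compat.disj (h : Compat op) {a b : G} (hab : a ⊓ b = 0) : op a b = a ⊔ b := by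
  obtain ⟨a', h1, h2⟩ := h.inv a
  obtain ⟨b', h3, h4⟩ := h.inv b
  have ha : 0 ≤ a := hab ▸ inf_le_left
  have hb : 0 ≤ b := hab ▸ inf_le_right
  have key : a' ⊔ b' = 0 := by
    obtain ⟨c', h5, h6⟩ := h.inv (a' ⊔ b')
    have hc1 : c' ≤ a := by
      have e1 : op c' a' ≤ 0 := by
        have := (h.mono _ _ c' (le_sup_left : a' ≤ a' ⊔ b')).1
        rwa [h6] at this
      have e2 := (h.mono _ _ a e1).2
      rwa [h.assoc, h2, (h.unit _).1, (h.unit _).2] at e2
    have hc2 : c' ≤ b := by
      have e1 : op c' b' ≤ 0 := by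
        have := (h.mono _ _ c' (le_sup_right : b' ≤ a' ⊔ b')).1
        rwa [h6] at this
      have e2 := (h.mono _ _ b e1).2
      rwa [h.assoc, h4, (h.unit _).1, (h.unit _).2] at e2
    have hc : c' ≤ 0 := hab ▸ le_inf hc1 hc2
    apply le_antisymm
    · apply sup_le
      · have := (h.mono _ _ a' ha).1
        rwa [h2, (h.unit _).2] at this
      · have := (h.mono _ _ b' hb).1
        rwa [h4, (h.unit _).2] at this
    · have := (h.mono _ _ (a' ⊔ b') hc).1
      rwa [h5, (h.unit _).2] at this
  have : op a (op (a' ⊔ b') b) = a ⊔ b := by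
    rw [h.right_sup, h4, h.left_sup, ← h.assoc, h1, (h.unit _).1, (h.unit _).2, sup_comm]
  rw [key, (h.unit _).1] at this
  exact this

end general

end Pool.Agent.H343R3.UA
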