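import Mathlib
import Pool.Agent.H343R3.OpLemmas

set_option autoImplicit false

namespace Pool.Agent.H343R3.UA

/-- The facts on idempotent-like elements (`0 ≤ e ≤ 1`) that are used. -/
structure Nice (G : Type*) [Lattice G] [CommRing G] : Prop where
  one_nonneg : (0 : G) ≤ 1
  compl_inf : ∀ u z : G, 0 ≤ u → u ≤ z → z ≤ 1 → u ⊓ (z - u) = 0
  bool_le : ∀ z u : G, 0 ≤ z → 0 ≤ u → (z ⊓ 1) ⊓ u = 0 → (z ⊓ 1) ⊔ u = z → z ≤ 1
  mul_nonneg : ∀ e x : G, 0 ≤ e → e ≤ 1 → 0 ≤ x → 0 ≤ e * x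
  disj : ∀ e x y : G, 0 ≤ e → e ≤ 1 → 0 ≤ x → 0 ≤ y → (e * x) ⊓ ((1 - e) * y) = 0
  idem : ∀ e : G, 0 ≤ e → e ≤ 1 → e * e = e
  neg_part : ∀ x : G, ∃ d : G, 0 ≤ d ∧ d ≤ 1 ∧ ∀ e : G, 0 ≤ e → e ≤ 1 →
    (x + e) ⊔ 0 = (x ⊔ 0) + (1 - d) * e ∧ (x + e) ⊓ 0 = (x ⊓ 0) + d * e
  loc_iff : ∀ e x y : G, 0 ≤ e → e ≤ 1 → x ≤ y → (e * x = e * y ↔ y ⊓ (x + e) = x)
  loc_inf : ∀ e x y : G, 0 ≤ e → e ≤ 1 → e * x = e * y → e * (x ⊓ y) = e * x

section

variable {G : Type*} [Lattice G] [CommRing G] [IsOrderedAddMonoid G] {op : G → G → G}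

/-- Boolean intervals, in purely lattice-theoretic terms. -/
def BoolInt (x z : G) : Prop :=
  x ≤ z ∧ ∀ u, x ≤ u → u ≤ z → ∃ v, x ≤ v ∧ v ≤ z ∧ u ⊓ v = x ∧ u ⊔ v = z

theorem sup_eq_add_of_inf {a b : G} (h : a ⊓ b = 0) : a ⊔ b = a + b := by
  have := inf_add_sup a b
  rw [h, zero_add] at this
  exact this

theorem boolInt_zero (hG : Nice G) (z : G) : BoolInt 0 z ↔ 0 ≤ z ∧ z ≤ 1 := by
  constructor
  · rintro ⟨h0, h1⟩
    refine ⟨h0, ?_⟩
    obtain ⟨v, hv0, hv1, hv2, hv3⟩ := h1 (z ⊓ 1) (le_inf h0 hG.one_nonneg) inf_le_left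
    exact hG.bool_le z v h0 hv0 hv2 hv3
  · rintro ⟨h0, h1⟩
    refine ⟨h0, fun u hu hz => ⟨z - u, sub_nonneg.2 hz, ?_, ?_, ?_⟩⟩
    · exact sub_le_self _ hu
    · exact hG.compl_inf u z hu hz h1
    · rw [sup_eq_add_of_inf (hG.compl_inf u z hu hz h1)]
      abel

/-- Boolean intervals are preserved by translations of a compatible operation. -/
theorem BoolInt.translate (h : Compat op) {x z : G} (hb : BoolInt x z) (a : G) :
    BoolInt (op a x) (op a z) := by
  obtain ⟨h0, h1⟩ := hb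
  refine ⟨h.le_left.2 h0, fun u hu hz => ?_⟩
  obtain ⟨a', ha1, ha2⟩ := h.inv a
  have e1 : x ≤ op a' u := by
    rw [← h.le_left (c := a), ← h.assoc, ha1, (h.unit _).1]
    exact hu
  have e2 : op a' u ≤ z := by
    rw [← h.le_left (c := a), ← h.assoc, ha1, (h.unit _).1]
    exact hz
  obtain ⟨v, hv0, hv1, hv2, hv3⟩ := h1 _ e1 e2
  refine ⟨op a v, h.le_left.2 hv0, h.le_left.2 hv1, ?_, ?_⟩
  · have := congrArg (op a) hv2
    rwa [h.left_inf, ← h.assoc, ha1, (h.unit _).1] at this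
  · have := congrArg (op a) hv3
    rwa [h.left_sup, ← h.assoc, ha1, (h.unit _).1] at this

theorem compat_add : Compat (fun a b : G => a + b) where
  assoc := add_assoc
  unit := fun x => ⟨zero_add x, add_zero x⟩
  inv := fun x => ⟨-x, by simp, by simp⟩
  mono := fun a b c hab => ⟨add_le_add_right hab c, add_le_add_left hab c⟩

theorem op_one (hG : Nice G) (h : Compat op) (x : G) : op x 1 = x + 1 := by
  apply le_antisymm
  · -- `[x, op x 1]` is Boolean
    have h1 : BoolInt (0 : G) 1 := (boolInt_zero hG 1).2 ⟨hG.one_nonneg, le_rfl⟩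
    have h2 : BoolInt x (op x 1) := by
      have := h1.translate h x
      rwa [(h.unit x).2] at this
    have h3 := h2.translate (compat_add (G := G)) (-x)
    simp only [neg_add_cancel] at h3
    have h4 := ((boolInt_zero hG _).1 h3).2
    have := add_le_add_right h4 x
    simpa using this
  · have h1 : BoolInt (0 : G) 1 := (boolInt_zero hG 1).2 ⟨hG.one_nonneg, le_rfl⟩
    have h2 : BoolInt x (x + 1) := by
      have := h1.translate (compat_add (G := G)) x
      simpa using this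
    obtain ⟨a', ha1, ha2⟩ := h.inv x
    have h3 := h2.translate h a'
    rw [ha2] at h3
    have h4 := ((boolInt_zero hG _).1 h3).2
    have := h.le_left (c := x) |>.2 h4
    rwa [← h.assoc, ha1, (h.unit _).1] at this

theorem one_op (hG : Nice G) (h : Compat op) (x : G) : op 1 x = x + 1 :=
  op_one hG h.flip x

/-- for `x ≥ 0`. -/
theorem op_pos (hG : Nice G) (h : Compat op) {x e : G} (hx : 0 ≤ x) (he0 : 0 ≤ e)
    (he1 : e ≤ 1) : op x e = x + e := by
  have hf0 : 0 ≤ 1 - e := sub_nonneg.2 he1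
  have hf1 : 1 - e ≤ 1 := sub_le_self _ he0
  set a := e * x with ha
  set b := (1 - e) * x with hb
  have hab : a + b = x := by rw [ha, hb]; ring
  have hab0 : a ⊓ b = 0 := hG.disj e x x he0 he1 hx hx
  have hopab : op a b = x := by
    rw [h.disj hab0, sup_eq_add_of_inf hab0, hab]
  have haf : a ⊓ (1 - e) = 0 := by
    have := hG.disj e x 1 he0 he1 hx hG.one_nonneg
    rwa [mul_one] at this
  have heb : e ⊓ b = 0 := by
    have := hG.disj e 1 x he0 he1 hG.one_nonneg hx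
    rwa [mul_one] at this
  have hef : e ⊓ (1 - e) = 0 := by
    have := hG.disj e 1 1 he0 he1 hG.one_nonneg hG.one_nonneg
    rwa [mul_one, mul_one] at this
  have hefs : e ⊔ (1 - e) = 1 := by rw [sup_eq_add_of_inf hef]; abel
  have h1 : op a (1 - e) = a + (1 - e) := by
    rw [h.disj haf, sup_eq_add_of_inf haf]
  -- op a e = a + e
  let _ : DistribLattice G := AddCommGroup.toDistribLattice G
  have h2 : op a e = a + e := by
    have k1 : op a e ⊔ (a + (1 - e)) = a + 1 := by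
      rw [← h1, ← h.left_sup, hefs, op_one hG h]
    have k2 : op a e ⊓ (a + (1 - e)) = a := by
      rw [← h1, ← h.left_inf, hef, (h.unit a).2]
    have k3 : (a + e) ⊔ (a + (1 - e)) = a + 1 := by
      rw [← add_sup, hefs]
    have k4 : (a + e) ⊓ (a + (1 - e)) = a := by
      rw [← add_inf, hef, add_zero]
    exact eq_of_inf_eq_sup_eq (k2.trans k4.symm) (k1.trans k3.symm)
  have h3 : op b e = op e b := by
    rw [h.disj heb, h.disj (by rw [inf_comm]; exact heb), sup_comm]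
  have h4 : (a + e) ⊓ b = 0 := by
    have := hG.disj e (x + 1) x he0 he1 (add_nonneg hx hG.one_nonneg) hx
    rwa [mul_add, mul_one] at this
  calc op x e = op (op a b) e := by rw [hopab]
    _ = op (op a e) b := by rw [h.assoc, h3, ← h.assoc]
    _ = op (a + e) b := by rw [h2]
    _ = (a + e) ⊔ b := h.disj h4
    _ = (a + e) + b := sup_eq_add_of_inf h4
    _ = x + e := by rw [← hab]; abel

/-- The conjugate of `op` under `x ↦ -x`. -/
theorem Compat.neg (h : Compat op) : Compat (fun a b : G => -op (-a) (-b)) where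
  assoc := fun x y z => by simp only [neg_neg, h.assoc]
  unit := fun x => by
    simp only [neg_zero]
    exact ⟨by rw [(h.unit _).1, neg_neg], by rw [(h.unit _).2, neg_neg]⟩
  inv := fun x => by
    obtain ⟨y, h1, h2⟩ := h.inv (-x)
    refine ⟨-y, ?_, ?_⟩
    · simp only [neg_neg]; rw [h1, neg_zero]
    · simp only [neg_neg]; rw [h2, neg_zero]
  mono := fun a b c hab => by
    have := h.mono (-b) (-a) (-c) (neg_le_neg hab)
    exact ⟨neg_le_neg this.1, neg_le_neg this.2⟩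

/-- for `x ≤ 0`. -/
theorem op_neg (hG : Nice G) (h : Compat op) {x e : G} (hx : x ≤ 0) (he0 : 0 ≤ e)
    (he1 : e ≤ 1) : op x e = x + e := by
  have h1 := op_pos hG h.neg (x := -x) (e := 1 - e) (neg_nonneg.2 hx) (sub_nonneg.2 he1)
    (sub_le_self _ he0)
  simp only [neg_neg] at h1
  have h2 : op x (-(1 - e)) = x + e - 1 := by
    rw [← neg_inj, h1]; ring
  have h3 : op (-(1 - e)) 1 = e := by
    rw [op_one hG h]; ring
  calc op x e = op x (op (-(1 - e)) 1) := by rw [h3]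
    _ = op (op x (-(1 - e))) 1 := by rw [h.assoc]
    _ = x + e := by rw [h2, op_one hG h]; ring

theorem op_e (hG : Nice G) (h : Compat op) (x : G) {e : G} (he0 : 0 ≤ e)
    (he1 : e ≤ 1) : op x e = x + e := by
  obtain ⟨d, hd0, hd1, hd⟩ := hG.neg_part x
  have hc0 : 0 ≤ 1 - d := sub_nonneg.2 hd1
  have hc1 : 1 - d ≤ 1 := sub_le_self _ hd0
  have hdis : (d * e) ⊓ ((1 - d) * e) = 0 := hG.disj d e e hd0 hd1 he0 he0
  have e10 : 0 ≤ (1 - d) * e := hG.mul_nonneg _ _ hc0 hc1 he0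
  have e20 : 0 ≤ d * e := hG.mul_nonneg _ _ hd0 hd1 he0
  have e12 : (1 - d) * e + d * e = e := by ring
  have e11 : (1 - d) * e ≤ 1 := le_trans (by
    have := le_add_of_nonneg_right (a := (1 - d) * e) e20
    rwa [e12] at this) he1
  have e21 : d * e ≤ 1 := le_trans (by
    have := le_add_of_nonneg_left (a := d * e) e10
    rwa [e12] at this) he1
  have hop : op ((1 - d) * e) (d * e) = e := by
    rw [inf_comm] at hdis
    rw [h.disj hdis, sup_eq_add_of_inf hdis, e12]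
  have p0 : 0 ≤ x ⊔ 0 := le_sup_right
  have n0 : x ⊓ 0 ≤ 0 := inf_le_right
  have c1 : op (x ⊓ 0) ((1 - d) * e) = op ((1 - d) * e) (x ⊓ 0) := by
    rw [op_neg hG h n0 e10 e11]
    have := op_neg hG h.flip n0 e10 e11
    exact this.symm
  calc op x e = op (op (x ⊔ 0) (x ⊓ 0)) (op ((1 - d) * e) (d * e)) := by
        rw [h.sup_inf_zero, hop]
    _ = op (x ⊔ 0) (op (op (x ⊓ 0) ((1 - d) * e)) (d * e)) := by
        rw [h.assoc, ← h.assoc (x ⊓ 0)]
    _ = op (x ⊔ 0) (op (op ((1 - d) * e) (x ⊓ 0)) (d * e)) := by rw [c1]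
    _ = op (op (x ⊔ 0) ((1 - d) * e)) (op (x ⊓ 0) (d * e)) := by
        rw [h.assoc ((1 - d) * e), ← h.assoc (x ⊔ 0)]
    _ = op ((x ⊔ 0) + (1 - d) * e) ((x ⊓ 0) + d * e) := by
        rw [op_pos hG h p0 e10 e11, op_neg hG h n0 e20 e21]
    _ = op ((x + e) ⊔ 0) ((x + e) ⊓ 0) := by
        rw [(hd e he0 he1).1, (hd e he0 he1).2]
    _ = x + e := h.sup_inf_zero _

theorem e_op (hG : Nice G) (h : Compat op) (x : G) {e : G} (he0 : 0 ≤ e)
    (he1 : e ≤ 1) : op e x = x + e :=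
  op_e hG h.flip x he0 he1

theorem local_le (hG : Nice G) (h : Compat op) {x y e : G} (he0 : 0 ≤ e)
    (he1 : e ≤ 1) (hxy : x ≤ y) (hE : e * x = e * y) (z : G) :
    e * op x z = e * op y z := by
  rw [hG.loc_iff e x y he0 he1 hxy] at hE
  rw [hG.loc_iff e _ _ he0 he1 (h.le_right.2 hxy)]
  have : op (y ⊓ (x + e)) z = op x z := by rw [hE]
  rw [h.right_inf] at this
  rw [← e_op hG h x he0 he1, h.assoc, e_op hG h _ he0 he1] at this
  exact this

theorem local_op (hG : Nice G) (h : Compat op) {x y e : G} (he0 : 0 ≤ e)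
    (he1 : e ≤ 1) (hE : e * x = e * y) (z : G) :
    e * op x z = e * op y z := by
  have h1 : e * (x ⊓ y) = e * x := hG.loc_inf e x y he0 he1 hE
  have h2 : e * op (x ⊓ y) z = e * op x z := local_le hG h he0 he1 inf_le_left h1 z
  have h3 : e * op (x ⊓ y) z = e * op y z :=
    local_le hG h he0 he1 inf_le_right (h1.trans hE) z
  exact h2.symm.trans h3

/-- If every self map of `G` that fixes `0`, commutes with `x ↦ x + 1` and is local is the
identity, then `op` is addition. -/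
theorem op_eq_add (hG : Nice G) (h : Compat op)
    (hrigid : ∀ Φ : G → G, Φ 0 = 0 → (∀ x, Φ (x + 1) = Φ x + 1) →
      (∀ e x y : G, 0 ≤ e → e ≤ 1 → e * x = e * y → e * Φ x = e * Φ y) → ∀ x, Φ x = x)
    (x y : G) : op x y = x + y := by
  have := hrigid (fun x => op x y - y) (by simp only [(h.unit y).1, sub_self]) (fun x => by
    have : op (x + 1) y = op x y + 1 := by
      rw [← one_op hG h, h.assoc, one_op hG h]
    simp only [this]; ring) (fun e a b he0 he1 hE => by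
      simp only [mul_sub]
      rw [local_op hG h he0 he1 hE]) x
  exact sub_eq_iff_eq_add.1 this

end

end Pool.Agent.H343R3.UA
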