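import Mathlib
import Pool.Agent.H343R3.OpMain

set_option autoImplicit false

namespace Pool.Agent.H343R3.UA

open Filter

/-- The (large) set of coordinates. -/
abbrev J : Type := Set (ℕ → ℤ)

/-- The points. -/
abbrev Pt : Type := J → ℤ

/-- `g` depends only on the coordinates in `C`. -/
def Dep (g : Pt → ℤ) (C : Set J) : Prop := ∀ x y : Pt, (∀ j ∈ C, x j = y j) → g x = g y

theorem Dep.mono {g : Pt → ℤ} {C D : Set J} (h : Dep g C) (hCD : C ⊆ D) : Dep g D :=
  fun x y hxy => h x y fun j hj => hxy j (hCD hj)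

/-- The ring of integer valued functions that depend on countably many coordinates. -/
def S : Subring (Pt → ℤ) where
  carrier := {g | ∃ C : Set J, C.Countable ∧ Dep g C}
  mul_mem' := by
    rintro a b ⟨C, hC, ha⟩ ⟨D, hD, hb⟩
    exact ⟨C ∪ D, hC.union hD, fun x y hxy => by
      simp only [Pi.mul_apply, ha.mono Set.subset_union_left x y hxy,
        hb.mono Set.subset_union_right x y hxy]⟩
  one_mem' := ⟨∅, Set.countable_empty, fun x y _ => rfl⟩
  add_mem' := by
    rintro a b ⟨C, hC, ha⟩ ⟨D, hD, hb⟩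
    exact ⟨C ∪ D, hC.union hD, fun x y hxy => by
      simp only [Pi.add_apply, ha.mono Set.subset_union_left x y hxy,
        hb.mono Set.subset_union_right x y hxy]⟩
  zero_mem' := ⟨∅, Set.countable_empty, fun x y _ => rfl⟩
  neg_mem' := by
    rintro a ⟨C, hC, ha⟩
    exact ⟨C, hC, fun x y hxy => by simp only [Pi.neg_apply, ha x y hxy]⟩

instance : Lattice S := Subtype.lattice
  (by
    rintro a b ⟨C, hC, ha⟩ ⟨D, hD, hb⟩
    exact ⟨C ∪ D, hC.union hD, fun x y hxy => by
      simp only [Pi.sup_apply, ha.mono Set.subset_union_left x y hxy,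
        hb.mono Set.subset_union_right x y hxy]⟩)
  (by
    rintro a b ⟨C, hC, ha⟩ ⟨D, hD, hb⟩
    exact ⟨C ∪ D, hC.union hD, fun x y hxy => by
      simp only [Pi.inf_apply, ha.mono Set.subset_union_left x y hxy,
        hb.mono Set.subset_union_right x y hxy]⟩)

theorem S_le {a b : S} : a ≤ b ↔ ∀ x, a.1 x ≤ b.1 x := Iff.rfl

@[simp] theorem S_sup (a b : S) (x : Pt) : (a ⊔ b).1 x = max (a.1 x) (b.1 x) := rfl
@[simp] theorem S_inf (a b : S) (x : Pt) : (a ⊓ b).1 x = min (a.1 x) (b.1 x) := rfl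
@[simp] theorem S_add (a b : S) (x : Pt) : (a + b).1 x = a.1 x + b.1 x := rfl
@[simp] theorem S_mul (a b : S) (x : Pt) : (a * b).1 x = a.1 x * b.1 x := rfl
@[simp] theorem S_sub (a b : S) (x : Pt) : (a - b).1 x = a.1 x - b.1 x := rfl
@[simp] theorem S_neg (a : S) (x : Pt) : (-a).1 x = -a.1 x := rfl
@[simp] theorem S_zero (x : Pt) : (0 : S).1 x = 0 := rfl
@[simp] theorem S_one (x : Pt) : (1 : S).1 x = 1 := rfl

instance : IsOrderedAddMonoid S where
  add_le_add_left := fun a b hab c => by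
    rw [S_le] at hab ⊢
    intro x
    have := hab x
    simp only [S_add]
    omega

/-- The index filter. -/
noncomputable abbrev U : Ultrafilter ℕ := hyperfilter ℕ

/-- The group. -/
abbrev G : Type := Germ (U : Filter ℕ) S

noncomputable instance : CommRing G := inferInstance
noncomputable instance : Lattice G := inferInstance
instance : IsOrderedAddMonoid G := inferInstance

theorem G_eq {f g : ℕ → S} : (f : G) = g ↔ ∀ᶠ n in (U : Filter ℕ), ∀ x, (f n).1 x = (g n).1 x := by
  rw [Germ.coe_eq]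
  constructor
  · intro h
    filter_upwards [h] with n hn x
    rw [hn]
  · intro h
    filter_upwards [h] with n hn
    exact Subtype.ext (funext hn)

theorem G_le {f g : ℕ → S} : (f : G) ≤ g ↔ ∀ᶠ n in (U : Filter ℕ), ∀ x, (f n).1 x ≤ (g n).1 x := by
  rw [Germ.coe_le]
  rfl

theorem G_sup (f g : ℕ → S) : (f : G) ⊔ g = ((fun n => f n ⊔ g n : ℕ → S) : G) := rfl
theorem G_inf (f g : ℕ → S) : (f : G) ⊓ g = ((fun n => f n ⊓ g n : ℕ → S) : G) := rfl
theorem G_add (f g : ℕ → S) : (f : G) + g = ((fun n => f n + g n : ℕ → S) : G) := rfl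
theorem G_mul (f g : ℕ → S) : (f : G) * g = ((fun n => f n * g n : ℕ → S) : G) := rfl
theorem G_sub (f g : ℕ → S) : (f : G) - g = ((fun n => f n - g n : ℕ → S) : G) := rfl
theorem G_zero : (0 : G) = ((fun _ => 0 : ℕ → S) : G) := rfl
theorem G_one : (1 : G) = ((fun _ => 1 : ℕ → S) : G) := rfl

end Pool.Agent.H343R3.UA
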