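import Mathlib
import Pool.Agent.H343R3.Model

set_option autoImplicit false

namespace Pool.Agent.H343R3.UA

open Filter

theorem zero_or_one {a : ℤ} (h0 : 0 ≤ a) (h1 : a ≤ 1) : a = 0 ∨ a = 1 := by omega

/-- the indicator of negativity of an element of `S`. -/
def negInd (f : S) : S := ⟨fun x => if f.1 x < 0 then 1 else 0, by
  obtain ⟨C, hC, h⟩ := f.2
  exact ⟨C, hC, fun x y hxy => by simp only [h x y hxy]⟩⟩

theorem niceG : Nice G where
  one_nonneg := by
    rw [G_zero, G_one, G_le]
    exact Eventually.of_forall fun n x => by simp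
  compl_inf := by
    intro u z
    refine Germ.inductionOn₂ u z fun f g => ?_
    rw [G_zero, G_one]
    intro h1 h2 h3
    rw [G_le] at h1 h2 h3
    rw [G_sub, G_inf, G_eq]
    filter_upwards [h1, h2, h3] with n h1 h2 h3 x
    have h1 := h1 x
    have h2 := h2 x
    have h3 := h3 x
    simp only [S_zero, S_one, S_inf, S_sub] at *
    omega
  bool_le := by
    intro z u
    refine Germ.inductionOn₂ z u fun f g => ?_
    rw [G_zero, G_one, G_inf, G_inf, G_sup, G_le, G_le, G_le, G_eq, G_eq]
    intro h1 h2 h3 h4
    filter_upwards [h1, h2, h3, h4] with n h1 h2 h3 h4 x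
    have h1 := h1 x
    have h2 := h2 x
    have h3 := h3 x
    have h4 := h4 x
    simp only [S_zero, S_one, S_inf, S_sup] at *
    omega
  mul_nonneg := by
    intro e x
    refine Germ.inductionOn₂ e x fun f g => ?_
    rw [G_zero, G_one, G_mul, G_le, G_le, G_le, G_le]
    intro h1 h2 h3
    filter_upwards [h1, h2, h3] with n h1 h2 h3 x
    have h1 := h1 x
    have h2 := h2 x
    have h3 := h3 x
    simp only [S_zero, S_one, S_mul] at *
    rcases zero_or_one h1 h2 with h | h <;> rw [h] <;> simp [h3]
  disj := by
    intro e x y
    refine Germ.inductionOn₃ e x y fun f g k => ?_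
    rw [G_zero, G_one, G_mul, G_sub, G_mul, G_inf, G_le, G_le, G_le, G_le, G_eq]
    intro h1 h2 h3 h4
    filter_upwards [h1, h2, h3, h4] with n h1 h2 h3 h4 x
    have h1 := h1 x
    have h2 := h2 x
    have h3 := h3 x
    have h4 := h4 x
    simp only [S_zero, S_one, S_mul, S_inf, S_sub] at *
    rcases zero_or_one h1 h2 with h | h <;> rw [h] <;> simp [h3, h4]
  idem := by
    intro e
    refine Germ.inductionOn e fun f => ?_
    rw [G_zero, G_one, G_mul, G_le, G_le, G_eq]
    intro h1 h2
    filter_upwards [h1, h2] with n h1 h2 x
    have h1 := h1 x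
    have h2 := h2 x
    simp only [S_zero, S_one, S_mul] at *
    rcases zero_or_one h1 h2 with h | h <;> rw [h] <;> simp
  neg_part := by
    intro x
    refine Germ.inductionOn x fun f => ?_
    refine ⟨((fun n => negInd (f n) : ℕ → S) : G), ?_, ?_, ?_⟩
    · rw [G_zero, G_le]
      refine Eventually.of_forall fun n x => ?_
      simp only [S_zero, negInd]
      split_ifs <;> simp
    · rw [G_one, G_le]
      refine Eventually.of_forall fun n x => ?_
      simp only [S_one, negInd]
      split_ifs <;> simp
    · intro e
      refine Germ.inductionOn e fun g => ?_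
      rw [G_zero, G_one, G_add, G_sup, G_inf, G_sup, G_inf, G_sub, G_mul, G_mul, G_add, G_add,
        G_le, G_le, G_eq, G_eq]
      intro h1 h2
      constructor
      · filter_upwards [h1, h2] with n h1 h2 x
        have h1 := h1 x
        have h2 := h2 x
        simp only [S_zero, S_one, S_mul, S_add, S_sup, S_sub, negInd] at *
        split_ifs with h
        · simp only [sub_self, zero_mul, add_zero]; omega
        · simp only [sub_zero, one_mul]; omega
      · filter_upwards [h1, h2] with n h1 h2 x
        have h1 := h1 x
        have h2 := h2 x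
        simp only [S_zero, S_one, S_mul, S_add, S_inf, negInd] at *
        split_ifs with h
        · simp only [one_mul]; omega
        · simp only [zero_mul, add_zero]; omega
  loc_iff := by
    intro e x y
    refine Germ.inductionOn₃ e x y fun f g k => ?_
    rw [G_zero, G_one, G_mul, G_mul, G_add, G_inf, G_le, G_le, G_le, G_eq, G_eq]
    intro h1 h2 h3
    constructor
    · intro h4
      filter_upwards [h1, h2, h3, h4] with n h1 h2 h3 h4 x
      have h1 := h1 x
      have h2 := h2 x
      have h3 := h3 x
      have h4 := h4 x
      simp only [S_zero, S_one, S_mul, S_inf, S_add] at *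
      rcases zero_or_one h1 h2 with h | h <;> rw [h] at h4 ⊢
      · omega
      · omega
    · intro h4
      filter_upwards [h1, h2, h3, h4] with n h1 h2 h3 h4 x
      have h1 := h1 x
      have h2 := h2 x
      have h3 := h3 x
      have h4 := h4 x
      simp only [S_zero, S_one, S_mul, S_inf, S_add] at *
      rcases zero_or_one h1 h2 with h | h <;> rw [h] at h4 ⊢
      · simp
      · omega
  loc_inf := by
    intro e x y
    refine Germ.inductionOn₃ e x y fun f g k => ?_
    rw [G_zero, G_one, G_mul, G_mul, G_inf, G_mul, G_le, G_le, G_eq, G_eq]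
    intro h1 h2 h3
    filter_upwards [h1, h2, h3] with n h1 h2 h3 x
    have h1 := h1 x
    have h2 := h2 x
    have h3 := h3 x
    simp only [S_zero, S_one, S_mul, S_inf] at *
    rcases zero_or_one h1 h2 with h | h <;> rw [h] at h3 ⊢
    · omega
    · omega

end Pool.Agent.H343R3.UA
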