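import Mathlib
import Pool.Agent.H343R3.NiceG

set_option autoImplicit false

namespace Pool.Agent.H343R3.UA

open Filter

/-- Countably many coordinates for each sequence of integers do not exhaust `J`. -/
theorem exists_fresh (C : (ℕ → ℤ) → ℕ → Set J) (hC : ∀ t n, (C t n).Countable) :
    ∃ α : J, ∀ t n, α ∉ C t n := by
  by_contra hcon
  push Not at hcon
  -- a surjection from `(ℕ → ℤ) × ℕ × ℕ`
  have h1 : ∀ t n, ∃ f : ℕ → J, C t n ⊆ Set.range f := by
    intro t n
    rcases (C t n).eq_empty_or_nonempty with h | h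
    · exact ⟨fun _ => ∅, by rw [h]; exact Set.empty_subset _⟩
    · obtain ⟨f, hf⟩ := (hC t n).exists_eq_range h
      exact ⟨f, hf.subset⟩
  choose f hf using h1
  let F : (ℕ → ℤ) → J := fun s =>
    f (fun n => s (n + 2)) (s 0).toNat (s 1).toNat
  have hF : Function.Surjective F := by
    intro α
    obtain ⟨t, n, ht⟩ := hcon α
    obtain ⟨m, hm⟩ := hf t n ht
    refine ⟨fun k => match k with
      | 0 => (n : ℤ)
      | 1 => (m : ℤ)
      | (k + 2) => t k, ?_⟩
    simp only [F]
    simpa using hm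
  exact Function.cantor_surjective F hF

/-- integer constants -/
def cst (k : ℤ) : S := ⟨fun _ => k, ∅, Set.countable_empty, fun _ _ _ => rfl⟩

/-- coordinate functions -/
def crd (α : J) : S := ⟨fun x => x α, {α}, Set.countable_singleton α, fun x y h => h α rfl⟩

/-- indicator of `{g = k}` -/
def ind (g : S) (k : ℤ) : S := ⟨fun x => if g.1 x = k then 1 else 0, by
  obtain ⟨C, hC, h⟩ := g.2
  exact ⟨C, hC, fun x y hxy => by simp only [h x y hxy]⟩⟩

/-- the constant elements of `G` -/
noncomputable def cG (t : ℕ → ℤ) : G := ((fun n => cst (t n) : ℕ → S) : G)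

theorem ind_nonneg (g : ℕ → S) (t : ℕ → ℤ) :
    (0 : G) ≤ ((fun n => ind (g n) (t n) : ℕ → S) : G) := by
  rw [G_zero, G_le]
  refine Eventually.of_forall fun n x => ?_
  simp only [S_zero, ind]
  split_ifs <;> simp

theorem ind_le_one (g : ℕ → S) (t : ℕ → ℤ) :
    ((fun n => ind (g n) (t n) : ℕ → S) : G) ≤ 1 := by
  rw [G_one, G_le]
  refine Eventually.of_forall fun n x => ?_
  simp only [S_one, ind]
  split_ifs <;> simp

theorem ind_mul (g : ℕ → S) (t : ℕ → ℤ) :
    ((fun n => ind (g n) (t n) : ℕ → S) : G) * (g : G) =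
      ((fun n => ind (g n) (t n) : ℕ → S) : G) * cG t := by
  rw [cG, G_mul, G_mul, G_eq]
  refine Eventually.of_forall fun n x => ?_
  simp only [S_mul, ind, cst]
  split_ifs with h
  · rw [h]
  · simp

/-- what locality gives -/
theorem local_out {Φ : G → G} (hloc : ∀ e x y : G, 0 ≤ e → e ≤ 1 → e * x = e * y →
    e * Φ x = e * Φ y) (g h p : ℕ → S) (t : ℕ → ℤ) (hh : Φ (g : G) = (h : G))
    (hp : Φ (cG t) = (p : G)) :
    ∀ᶠ n in (U : Filter ℕ), ∀ x, (g n).1 x = t n → (h n).1 x = (p n).1 x := by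
  have h1 := hloc _ _ _ (ind_nonneg g t) (ind_le_one g t) (ind_mul g t)
  rw [hh, hp, G_mul, G_mul, G_eq] at h1
  filter_upwards [h1] with n hn x hx
  have := hn x
  simp only [S_mul, ind, if_pos hx, one_mul] at this
  exact this

theorem rigid (Φ : G → G) (h0 : Φ 0 = 0) (h1 : ∀ x, Φ (x + 1) = Φ x + 1)
    (hloc : ∀ e x y : G, 0 ≤ e → e ≤ 1 → e * x = e * y → e * Φ x = e * Φ y) (x : G) :
    Φ x = x := by
  classical
  -- representatives
  have hrep : ∀ y : G, ∃ p : ℕ → S, y = (p : G) := fun y =>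
    Germ.inductionOn y fun p => ⟨p, rfl⟩
  choose p hp using fun t : ℕ → ℤ => hrep (Φ (cG t))
  choose C hC hD using fun (t : ℕ → ℤ) (n : ℕ) => (p t n).2
  obtain ⟨α, hα⟩ := exists_fresh C hC
  obtain ⟨q, hq⟩ := hrep (Φ ((fun _ => crd α : ℕ → S) : G))
  -- independence of `α`
  have hind : ∀ (t : ℕ → ℤ) (n : ℕ) (x : Pt) (k : ℤ),
      (p t n).1 (Function.update x α k) = (p t n).1 x := by
    intro t n x k
    apply hD t n
    intro j hj
    rw [Function.update_of_ne]
    rintro rfl
    exact hα t n hj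
  have hql : ∀ t : ℕ → ℤ, ∀ᶠ n in (U : Filter ℕ), ∀ x : Pt,
      (q n).1 (Function.update x α (t n)) = (p t n).1 x := by
    intro t
    filter_upwards [local_out hloc (fun _ => crd α) q (p t) t hq (hp t)] with n hn x
    rw [hn (Function.update x α (t n)) (by simp [crd]), hind]
  have hps : ∀ t : ℕ → ℤ, ∀ᶠ n in (U : Filter ℕ), ∀ x : Pt,
      (p (fun m => t m + 1) n).1 x = (p t n).1 x + 1 := by
    intro t
    have e1 : cG (fun m => t m + 1) = cG t + 1 := by
      rw [cG, cG, G_one, G_add, G_eq]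
      exact Eventually.of_forall fun n x => rfl
    have e2 : (p (fun m => t m + 1) : G) = (p t : G) + 1 := by
      rw [← hp, ← hp, e1, h1]
    rw [G_one, G_add, G_eq] at e2
    exact e2
  -- the main claim
  have hstep : ∀ᶠ n in (U : Filter ℕ), ∀ (k : ℤ) (x : Pt),
      (q n).1 (Function.update x α (k + 1)) = (q n).1 (Function.update x α k) + 1 := by
    by_contra hcon
    rw [Ultrafilter.eventually_not.symm] at hcon
    set bad : ℕ → ℤ → Prop := fun n k => ∃ x : Pt,
      (q n).1 (Function.update x α (k + 1)) ≠ (q n).1 (Function.update x α k) + 1 with hbad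
    let t : ℕ → ℤ := fun n => if h : ∃ k, bad n k then h.choose else 0
    have ht : ∀ᶠ n in (U : Filter ℕ), bad n (t n) := by
      filter_upwards [hcon] with n hn
      push Not at hn
      have hn' : ∃ k, bad n k := by
        obtain ⟨k, x, hx⟩ := hn
        exact ⟨k, x, hx⟩
      simp only [t, dif_pos hn']
      exact hn'.choose_spec
    obtain ⟨n, hn1, hn2, hn3, hn4⟩ := (ht.and ((hql t).and ((hql (fun m => t m + 1)).and
      (hps t)))).exists
    obtain ⟨x, hx⟩ := hn1
    apply hx
    rw [hn3 x, hn2 x, hn4 x]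
  have hlin : ∀ᶠ n in (U : Filter ℕ), ∀ (k : ℤ) (x : Pt),
      (q n).1 (Function.update x α k) = (q n).1 (Function.update x α 0) + k := by
    filter_upwards [hstep] with n hn k x
    induction k using Int.induction_on with
    | zero => simp
    | succ i ih => rw [hn, ih]; ring
    | pred i ih =>
      have := hn (-(i : ℤ) - 1) x
      rw [sub_add_cancel, ih] at this
      linarith
  have hz : ∀ᶠ n in (U : Filter ℕ), ∀ x : Pt, (q n).1 (Function.update x α 0) = 0 := by
    have e1 : cG (fun _ => 0) = 0 := by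
      rw [cG, G_zero, G_eq]
      exact Eventually.of_forall fun n x => rfl
    have e2 := hp (fun _ => 0)
    rw [e1, h0, G_zero, G_eq] at e2
    filter_upwards [e2, hql (fun _ => 0)] with n hn1 hn2 x
    rw [hn2 x, ← hn1 x]
    rfl
  have hconst : ∀ t : ℕ → ℤ, Φ (cG t) = cG t := by
    intro t
    rw [hp t, cG, G_eq]
    filter_upwards [hlin, hz, hql t] with n hn1 hn2 hn3 x
    rw [← hn3 x, hn1, hn2, zero_add]
    rfl
  -- general elements
  obtain ⟨g, rfl⟩ := hrep x
  obtain ⟨h, hh⟩ := hrep (Φ (g : G))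
  rw [hh, G_eq]
  by_contra hcon
  rw [Ultrafilter.eventually_not.symm] at hcon
  set bad : ℕ → ℤ → Prop := fun n k => ∃ x : Pt, (h n).1 x ≠ (g n).1 x ∧ (g n).1 x = k with hbad
  let t : ℕ → ℤ := fun n => if h : ∃ k, bad n k then h.choose else 0
  have ht : ∀ᶠ n in (U : Filter ℕ), bad n (t n) := by
    filter_upwards [hcon] with n hn
    push Not at hn
    have hn' : ∃ k, bad n k := by
      obtain ⟨x, hx⟩ := hn
      exact ⟨_, x, hx, rfl⟩
    simp only [t, dif_pos hn']
    exact hn'.choose_spec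
  have hout := local_out hloc g h (fun n => cst (t n)) t hh (hconst t)
  obtain ⟨n, hn1, hn2⟩ := (ht.and hout).exists
  obtain ⟨x, hx1, hx2⟩ := hn1
  apply hx1
  rw [hn2 x hx2, hx2]
  rfl

/-- The group `G` has a unique addition. -/
theorem unique_add {op : G → G → G} (h : Compat op) (x y : G) : op x y = x + y :=
  op_eq_add niceG h rigid x y

/-- The group `G` is not archimedean. -/
theorem not_arch : ∃ a b : G, (∀ n : ℕ, n • a ≤ b) ∧ ¬ a ≤ 0 := by
  refine ⟨1, cG (fun n => (n : ℤ)), fun m => ?_, ?_⟩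
  · have e1 : m • (1 : G) = cG (fun _ => (m : ℤ)) := by
      induction m with
      | zero =>
        rw [zero_smul, cG, G_zero, G_eq]
        exact Eventually.of_forall fun n x => rfl
      | succ m ih =>
        rw [succ_nsmul, ih, cG, cG, G_one, G_add, G_eq]
        exact Eventually.of_forall fun n x => by simp [cst]
    rw [e1, cG, cG, G_le]
    have : ∀ᶠ n in (U : Filter ℕ), m ≤ n := by
      have h2 : ∀ᶠ n in (Filter.cofinite : Filter ℕ), m ≤ n := by
        rw [Nat.cofinite_eq_atTop]
        exact Filter.eventually_ge_atTop m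
      exact hyperfilter_le_cofinite h2
    filter_upwards [this] with n hn x
    simp only [cst]
    exact_mod_cast hn
  · rw [G_one, G_zero, G_le]
    intro hcon
    obtain ⟨n, hn⟩ := hcon.exists
    have := hn (fun _ => 0)
    simp at this

end Pool.Agent.H343R3.UA
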